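import Mathlib
import Pool.Agent.Results.MP_7489fb_co.LowerAllN

set_option autoImplicit false

/-!
# Distinct members of double covers of `[n]^d` by proper boxes

Whether `g(n,d) ≥ 2^d` for all `d` is a question about the number of *distinct* members of a
double cover, and it improves itself.
-/

namespace Pool.Agent.Results.MP_7489fb_co.DistinctMembers

open Filter Topology
open Pool.Agent.Results.MP_7489fb_co.AsymptoticUpperBound
open Pool.Agent.Results.MP_7489fb_co.ATwoSided

/-- number of distinct members of a family of boxes -/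
def distinct {n d : ℕ} (F : Multiset (Box n d)) : ℕ := F.toFinset.card

/-- number of members occurring exactly `j` times -/
def times {n d : ℕ} (j : ℕ) (F : Multiset (Box n d)) : ℕ :=
  (F.toFinset.filter (fun B => F.count B = j)).card

/-- least number of distinct members of a double cover of `[n]^d` -/
noncomputable def s (n d : ℕ) : ℕ := sInf {m | ∃ F, IsDoubleCover n d F ∧ distinct F = m}

/-- a pair of families, `N` counted once and `M` counted twice, covering every point twice -/
structure WC (n d : ℕ) (N M : Multiset (Box n d)) : Prop where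
  pN : ∀ B ∈ N, Proper B
  pM : ∀ B ∈ M, Proper B
  c : ∀ x, cov N x + 2 * cov M x = 2

section

variable {n d : ℕ}

lemma count_le_two {F : Multiset (Box n d)} (hF : IsDoubleCover n d F) (B : Box n d)
    (hB : B ∈ F) : F.count B ≤ 2 := by
  classical
  have hp := hF.1 B hB
  choose x hx using fun i => (hp i).1
  have h2 := hF.2 x
  rw [← h2]
  unfold Multiset.count
  rw [Multiset.countP_eq_card_filter, Multiset.countP_eq_card_filter]
  refine Multiset.card_le_card (Multiset.monotone_filter_right F ?_)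
  intro C hC
  subst hC
  exact hx

lemma split {F : Multiset (Box n d)} (hF : IsDoubleCover n d F) :
    ∃ N M : Multiset (Box n d), F = N + M + M ∧ Multiset.card N = times 1 F ∧
      Multiset.card M = times 2 F ∧ times 1 F + times 2 F = distinct F ∧ WC n d N M := by
  classical
  let N : Multiset (Box n d) := (F.toFinset.filter (fun B => F.count B = 1)).val
  let M : Multiset (Box n d) := (F.toFinset.filter (fun B => F.count B = 2)).val
  have hcount : ∀ B ∈ F, F.count B = 1 ∨ F.count B = 2 := by
    intro B hB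
    have h1 := count_le_two hF B hB
    have h2 := Multiset.count_pos.2 hB
    omega
  have hFNM : F = N + M + M := by
    ext B
    rw [Multiset.count_add, Multiset.count_add]
    have e1 : Multiset.count B N = if B ∈ N then 1 else 0 :=
      Multiset.count_eq_of_nodup (Finset.nodup _)
    have e2 : Multiset.count B M = if B ∈ M then 1 else 0 :=
      Multiset.count_eq_of_nodup (Finset.nodup _)
    rw [e1, e2]
    have m1 : B ∈ N ↔ (B ∈ F ∧ F.count B = 1) := by
      change B ∈ (F.toFinset.filter (fun B => F.count B = 1)) ↔ _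
      rw [Finset.mem_filter, Multiset.mem_toFinset]
    have m2 : B ∈ M ↔ (B ∈ F ∧ F.count B = 2) := by
      change B ∈ (F.toFinset.filter (fun B => F.count B = 2)) ↔ _
      rw [Finset.mem_filter, Multiset.mem_toFinset]
    by_cases hB : B ∈ F
    · rcases hcount B hB with h | h
      · rw [if_pos (m1.2 ⟨hB, h⟩), if_neg (fun h' => by have := (m2.1 h').2; omega)]
        omega
      · rw [if_pos (m2.2 ⟨hB, h⟩), if_neg (fun h' => by have := (m1.1 h').2; omega)]
        omega
    · rw [if_neg (fun h' => hB (m1.1 h').1), if_neg (fun h' => hB (m2.1 h').1),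
        Multiset.count_eq_zero.2 hB]
  refine ⟨N, M, hFNM, rfl, rfl, ?_, ⟨?_, ?_, ?_⟩⟩
  · unfold times distinct
    have h := Finset.card_filter_add_card_filter_not (s := F.toFinset) (fun B => F.count B = 1)
    rw [← h]
    congr 2
    ext B
    rw [Finset.mem_filter, Finset.mem_filter, Multiset.mem_toFinset]
    constructor
    · rintro ⟨h1, h2⟩
      exact ⟨h1, by omega⟩
    · rintro ⟨h1, h2⟩
      rcases hcount B h1 with h | h
      · exact absurd h h2
      · exact ⟨h1, h⟩
  · intro B hB
    exact hF.1 B (hFNM ▸ Multiset.mem_add.2 (Or.inl (Multiset.mem_add.2 (Or.inl hB))))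
  · intro B hB
    exact hF.1 B (hFNM ▸ Multiset.mem_add.2 (Or.inr hB))
  · intro x
    have h1 : cov F x = 2 := hF.2 x
    rw [hFNM, cov_add, cov_add] at h1
    omega

lemma WC.double {N M : Multiset (Box n d)} (h : WC n d N M) : IsDoubleCover n d (N + M + M) := by
  refine ⟨?_, ?_⟩
  · intro B hB
    rcases Multiset.mem_add.1 hB with hB | hB
    · rcases Multiset.mem_add.1 hB with hB | hB
      · exact h.pN B hB
      · exact h.pM B hB
    · exact h.pM B hB
  · intro x
    change cov _ x = 2
    rw [cov_add, cov_add]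
    have := h.c x
    omega

lemma WC.distinct_le {N M : Multiset (Box n d)} :
    distinct (N + M + M) ≤ Multiset.card N + Multiset.card M := by
  classical
  unfold distinct
  rw [Multiset.toFinset_add, Multiset.toFinset_add]
  have h1 := Multiset.toFinset_card_le N
  have h2 := Multiset.toFinset_card_le M
  have h3 : (N.toFinset ∪ M.toFinset) ∪ M.toFinset = N.toFinset ∪ M.toFinset := by
    rw [Finset.union_assoc, Finset.union_self]
  rw [h3]
  exact (Finset.card_union_le _ _).trans (Nat.add_le_add h1 h2)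

end

lemma exists_min (n : ℕ) (hn : 3 ≤ n) (d : ℕ) :
    ∃ F : Multiset (Box n d), IsDoubleCover n d F ∧ Multiset.card F = g n d := by
  have hne : {m | ∃ F, IsDoubleCover n d F ∧ Multiset.card F = m}.Nonempty := by
    obtain ⟨F, hF, _⟩ := exists_double n hn d
    exact ⟨_, F, hF, rfl⟩
  exact Nat.sInf_mem hne

lemma g_le {n d : ℕ} {F : Multiset (Box n d)} (hF : IsDoubleCover n d F) :
    g n d ≤ Multiset.card F := Nat.sInf_le ⟨F, hF, rfl⟩

lemma exists_min_s (n : ℕ) (hn : 3 ≤ n) (d : ℕ) :
    ∃ F : Multiset (Box n d), IsDoubleCover n d F ∧ distinct F = s n d := by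
  have hne : {m | ∃ F, IsDoubleCover n d F ∧ distinct F = m}.Nonempty := by
    obtain ⟨F, hF, _⟩ := exists_double n hn d
    exact ⟨_, F, hF, rfl⟩
  exact Nat.sInf_mem hne

lemma s_le {n d : ℕ} {F : Multiset (Box n d)} (hF : IsDoubleCover n d F) :
    s n d ≤ distinct F := Nat.sInf_le ⟨F, hF, rfl⟩

/-- substitution recursion -/
lemma g_rec (n : ℕ) (hn : 3 ≤ n) (k d : ℕ) {N M : Multiset (Box n d)} (h : WC n d N M) :
    g n (k + d) ≤ g n k * Multiset.card M + 2 ^ k * Multiset.card N := by
  obtain ⟨t⟩ := exists_skel n hn k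
  obtain ⟨D, hD, hc⟩ := exists_min n hn k
  have hG : IsDoubleCover n (k + d) (prd D M + prd (t.Q + t.A) N) := by
    refine ⟨?_, ?_⟩
    · intro B hB
      rcases Multiset.mem_add.1 hB with hB | hB
      · exact proper_prd hD.1 h.pM B hB
      · refine proper_prd ?_ h.pN B hB
        intro C hC
        rcases Multiset.mem_add.1 hC with hC | hC
        · exact t.pQ C hC
        · exact t.pA C hC
    · intro z
      obtain ⟨x, y, rfl⟩ := split_point z
      change cov _ _ = 2
      rw [cov_add, cov_prd, cov_prd, cov_add, t.hQ x]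
      have h1 : cov D x = 2 := hD.2 x
      have h2 := h.c y
      rw [h1]
      omega
  refine (g_le hG).trans ?_
  rw [Multiset.card_add, card_prd, card_prd, Multiset.card_add, hc, t.cA, t.cQ]

/-- a proper box extends to a partition into `2^a` boxes -/
lemma extend {n a : ℕ} (A : Box n a) (hA : Proper A) :
    ∃ Q : Multiset (Box n a), (∀ B ∈ Q, Proper B) ∧ Multiset.card Q + 1 = 2 ^ a ∧
      ∀ x, cov Q x + (if ∀ i, x i ∈ A i then 1 else 0) = 1 := by
  classical
  let bx : (Fin a → Bool) → Box n a := fun e i => if e i then A i else (A i)ᶜ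
  have hbx : ∀ e, Proper (bx e) := by
    intro e i
    by_cases h : e i
    · simp only [bx, h, if_true]
      exact hA i
    · simp only [bx, h]
      obtain ⟨h1, h2⟩ := hA i
      refine ⟨?_, ?_⟩
      · rw [← Finset.compl_ne_univ_iff_nonempty]
        simpa using h2
      · intro h3
        simp at h3
        simp [h3] at h1
  let T : Fin a → Bool := fun _ => true
  refine ⟨(Finset.univ.erase T).val.map bx, ?_, ?_, ?_⟩
  · intro B hB
    obtain ⟨e, _, rfl⟩ := Multiset.mem_map.1 hB
    exact hbx e
  · rw [Multiset.card_map]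
    change (Finset.univ.erase T).card + 1 = _
    rw [Finset.card_erase_add_one (Finset.mem_univ T), Finset.card_univ, Fintype.card_fun,
      Fintype.card_bool, Fintype.card_fin]
  · intro x
    have hx : cov (Finset.univ.val.map bx) x = 1 := by
      unfold cov
      rw [Multiset.countP_map, ← Finset.filter_val]
      change (Finset.univ.filter (fun e => ∀ i, x i ∈ bx e i)).card = 1
      rw [Finset.card_eq_one]
      refine ⟨fun i => decide (x i ∈ A i), ?_⟩
      ext e
      simp only [Finset.mem_filter, Finset.mem_univ, true_and, Finset.mem_singleton]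
      constructor
      · intro h
        funext i
        have hi := h i
        by_cases he : e i
        · simp only [bx, he, if_true] at hi
          simp [he, hi]
        · simp only [bx, he] at hi
          simp at hi
          simp [he, hi]
      · rintro rfl i
        by_cases h : x i ∈ A i
        · simp [bx, h]
        · simp [bx, h]
    have hcons : (Finset.univ : Finset (Fin a → Bool)).val =
        T ::ₘ (Finset.univ.erase T).val := by
      rw [Finset.erase_val]
      exact (Multiset.cons_erase (Finset.mem_univ T)).symm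
    rw [hcons, Multiset.map_cons, cov_cons] at hx
    have hT : bx T = A := by
      funext i
      simp [bx, T]
    rw [hT] at hx
    exact hx

lemma cov_single {n d : ℕ} (B : Box n d) (x : Fin d → Fin n) :
    cov ({B} : Multiset (Box n d)) x = if (∀ i, x i ∈ B i) then 1 else 0 := by
  have h : ({B} : Multiset (Box n d)) = B ::ₘ 0 := rfl
  rw [h, cov_cons, cov_zero, zero_add]

/-- composition of two covers at once-members -/
lemma compose {n a b : ℕ} {N₁ M₁ : Multiset (Box n a)} {N₂ M₂ : Multiset (Box n b)}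
    (h₁ : WC n a N₁ M₁) (h₂ : WC n b N₂ M₂) (A : Box n a) (hA : A ∈ N₁) (B : Box n b)
    (hB : B ∈ N₂) : ∃ N M : Multiset (Box n (a + b)), WC n (a + b) N M ∧
      Multiset.card N + Multiset.card M + 1 + 2 ^ a + 2 ^ b =
        (Multiset.card N₁ + Multiset.card M₁) + (Multiset.card N₂ + Multiset.card M₂) +
          2 ^ (a + b) := by
  obtain ⟨N₁', rfl⟩ := Multiset.exists_cons_of_mem hA
  obtain ⟨N₂', rfl⟩ := Multiset.exists_cons_of_mem hB
  have pA := h₁.pN A hA
  have pB := h₂.pN B hB
  obtain ⟨QA, pQA, cQA, hQA⟩ := extend A pA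
  obtain ⟨QB, pQB, cQB, hQB⟩ := extend B pB
  have sA : ∀ C ∈ ({A} : Multiset (Box n a)), Proper C := by
    intro C hC
    rw [Multiset.mem_singleton] at hC
    subst hC
    exact pA
  have sB : ∀ C ∈ ({B} : Multiset (Box n b)), Proper C := by
    intro C hC
    rw [Multiset.mem_singleton] at hC
    subst hC
    exact pB
  have p1 : ∀ C ∈ N₁', Proper C := fun C hC => h₁.pN C (Multiset.mem_cons_of_mem hC)
  have p2 : ∀ C ∈ N₂', Proper C := fun C hC => h₂.pN C (Multiset.mem_cons_of_mem hC)
  refine ⟨prd N₁' {B} + prd {A} N₂', prd M₁ {B} + prd {A} M₂ + prd QA QB, ⟨?_, ?_, ?_⟩, ?_⟩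
  · intro C hC
    rcases Multiset.mem_add.1 hC with hC | hC
    · exact proper_prd p1 sB C hC
    · exact proper_prd sA p2 C hC
  · intro C hC
    rcases Multiset.mem_add.1 hC with hC | hC
    · rcases Multiset.mem_add.1 hC with hC | hC
      · exact proper_prd h₁.pM sB C hC
      · exact proper_prd sA h₂.pM C hC
    · exact proper_prd pQA pQB C hC
  · intro z
    obtain ⟨x, y, rfl⟩ := split_point z
    rw [cov_add, cov_add, cov_add, cov_prd, cov_prd, cov_prd, cov_prd, cov_prd, cov_single,
      cov_single]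
    have e1 := h₁.c x
    have e2 := h₂.c y
    rw [cov_cons] at e1 e2
    have e3 := hQA x
    have e4 := hQB y
    by_cases hx : ∀ i, x i ∈ A i
    · rw [if_pos hx] at *
      by_cases hy : ∀ i, y i ∈ B i
      · rw [if_pos hy] at *
        have : cov QA x = 0 := by omega
        rw [this]
        omega
      · rw [if_neg hy] at *
        have : cov QA x = 0 := by omega
        rw [this]
        omega
    · rw [if_neg hx] at *
      by_cases hy : ∀ i, y i ∈ B i
      · rw [if_pos hy] at *
        have : cov QB y = 0 := by omega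
        rw [this]
        omega
      · rw [if_neg hy] at *
        have i1 : cov QA x = 1 := by omega
        have i2 : cov QB y = 1 := by omega
        rw [i1, i2]
        omega
  · simp only [Multiset.card_add, card_prd, Multiset.card_singleton, Multiset.card_cons]
    rw [pow_add, ← cQA, ← cQB]
    ring

/-- partitions into proper boxes have at least `2^d` members -/
theorem partition_lower (n d : ℕ) (hn : 2 ≤ n) (M : Multiset (Box n d))
    (hp : ∀ B ∈ M, Proper B) (hc : ∀ x, cov M x = 1) : 2 ^ d ≤ Multiset.card M := by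
  classical
  let a : Fin n := ⟨0, by omega⟩
  let b : Fin n := ⟨1, by omega⟩
  have hab : a ≠ b := by intro h; simpa [a, b] using congrArg Fin.val h
  have hS1 : ({a} : Finset (Fin n)).Nonempty := Finset.singleton_nonempty a
  have hS2 : ({a} : Finset (Fin n)) ≠ Finset.univ := by
    intro h
    have : b ∈ ({a} : Finset (Fin n)) := h ▸ Finset.mem_univ b
    exact hab (Finset.mem_singleton.1 this).symm
  obtain ⟨K, hK⟩ : ∃ K, K = cnt n {a} 0 := ⟨_, rfl⟩
  have hcard : Fintype.card (Om n) = 4 * K := by rw [hK]; exact card_Om n {a} hS1 hS2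
  have hall : ∀ S : Finset (Fin n), S.Nonempty → S ≠ Finset.univ → ∀ v, cnt n S v = K := by
    intro S h1 h2 v
    have h3 := card_Om n S h1 h2
    rw [cnt_eq n S h1 h2 v 0]
    omega
  have hpos : 0 < K := by
    have : 0 < Fintype.card (Om n) := by
      rw [Fintype.card_pos_iff]
      refine ⟨⟨Pi.single a 1, ?_⟩⟩
      rw [Finset.sum_pi_single']
      simp
    omega
  have hod : ∀ S : Finset (Fin n), S.Nonempty → S ≠ Finset.univ →
      ∑ ω : Om n, od (∑ j ∈ S, ω.1 j) = 2 * K := by
    intro S h1 h2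
    have e : ∀ ω : Om n, od (∑ j ∈ S, ω.1 j) =
        (if ∑ j ∈ S, ω.1 j = 1 then 1 else 0) + (if ∑ j ∈ S, ω.1 j = 3 then 1 else 0) := by
      intro ω
      generalize ∑ j ∈ S, ω.1 j = v
      revert v; decide
    rw [Finset.sum_congr rfl (fun ω _ => e ω), Finset.sum_add_distrib, ← Finset.card_filter,
      ← Finset.card_filter]
    have h3 := hall S h1 h2 1
    have h4 := hall S h1 h2 3
    unfold cnt at h3 h4
    rw [h3, h4]
    ring
  have hodadd : ∀ u v : ZMod 4, od (u + v) ≤ od u + od v := by decide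
  have hodsum : ∀ G : Multiset (ZMod 4), od G.sum ≤ (G.map od).sum := by
    intro G
    induction G using Multiset.induction_on with
    | empty => decide
    | cons u G ih =>
      rw [Multiset.sum_cons, Multiset.map_cons, Multiset.sum_cons]
      exact (hodadd _ _).trans (Nat.add_le_add_left ih _)
  have h1 : ∀ ω : Fin d → Om n, 1 ≤ (M.map (fun B => od (∏ i, ∑ j ∈ B i, (ω i).1 j))).sum := by
    intro ω
    have h2 := sum_val (fun i => (ω i).1) M
    have h3 : (∑ x : Fin d → Fin n, ((M.countP (fun B => ∀ i, x i ∈ B i) : ℕ) : ZMod 4) *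
        ∏ i, (ω i).1 (x i)) = 1 := by
      have h4 : ∀ x : Fin d → Fin n, ((M.countP (fun B => ∀ i, x i ∈ B i) : ℕ) : ZMod 4) *
          ∏ i, (ω i).1 (x i) = ∏ i, (ω i).1 (x i) := by
        intro x
        have : M.countP (fun B => ∀ i, x i ∈ B i) = 1 := hc x
        rw [this, Nat.cast_one, one_mul]
      rw [Finset.sum_congr rfl (fun x _ => h4 x)]
      have h5 : ∑ x : Fin d → Fin n, ∏ i, (ω i).1 (x i) = ∏ i, ∑ j, (ω i).1 j := by
        rw [Finset.prod_univ_sum, Fintype.piFinset_univ]
      rw [h5, Finset.prod_congr rfl (fun i _ => (ω i).2), Finset.prod_const_one]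
    rw [h3] at h2
    have h6 := hodsum (M.map (fun B => ∏ i, ∑ j ∈ B i, (ω i).1 j))
    rw [h2, Multiset.map_map] at h6
    have h7 : od (1 : ZMod 4) = 1 := by decide
    rw [h7] at h6
    exact h6
  have h7 : ∀ B : Box n d, Proper B →
      ∑ ω : Fin d → Om n, od (∏ i, ∑ j ∈ B i, (ω i).1 j) = (2 * K) ^ d := by
    intro B hB
    have e0 : ∀ ω : Fin d → Om n, od (∏ i, ∑ j ∈ B i, (ω i).1 j) =
        ∏ i, od (∑ j ∈ B i, (ω i).1 j) := fun ω => od_prod Finset.univ _
    rw [Finset.sum_congr rfl (fun ω _ => e0 ω)]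
    have e1 : (∑ ω : Fin d → Om n, ∏ i, od (∑ j ∈ B i, (ω i).1 j)) =
        ∏ i, ∑ ω : Om n, od (∑ j ∈ B i, ω.1 j) := by
      rw [Finset.prod_univ_sum, Fintype.piFinset_univ]
    rw [e1, Finset.prod_congr rfl (fun i _ => hod (B i) (hB i).1 (hB i).2), Finset.prod_const,
      Finset.card_univ, Fintype.card_fin]
  have h8 : ∀ G : Multiset (Box n d), (∀ B ∈ G, Proper B) →
      ∑ ω : Fin d → Om n, (G.map (fun B => od (∏ i, ∑ j ∈ B i, (ω i).1 j))).sum =
        Multiset.card G * (2 * K) ^ d := by
    intro G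
    induction G using Multiset.induction_on with
    | empty => simp
    | cons B G ih =>
      intro hG
      simp only [Multiset.map_cons, Multiset.sum_cons, Multiset.card_cons]
      rw [Finset.sum_add_distrib, add_mul, one_mul, add_comm,
        ih (fun C hC => hG C (Multiset.mem_cons_of_mem hC)),
        h7 B (hG B (Multiset.mem_cons_self _ _))]
  have h9 : (4 * K) ^ d ≤ Multiset.card M * (2 * K) ^ d := by
    calc (4 * K) ^ d = ∑ ω : Fin d → Om n, 1 := by
          rw [Finset.sum_const, Finset.card_univ, Fintype.card_fun, hcard, Fintype.card_fin,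
            smul_eq_mul, mul_one]
      _ ≤ ∑ ω : Fin d → Om n, (M.map (fun B => od (∏ i, ∑ j ∈ B i, (ω i).1 j))).sum :=
          Finset.sum_le_sum fun ω _ => h1 ω
      _ = _ := h8 M hp
  have h10 : (4 * K) ^ d = 2 ^ d * (2 * K) ^ d := by
    rw [← mul_pow]; ring_nf
  rw [h10] at h9
  exact Nat.le_of_mul_le_mul_right h9 (by positivity)

section limit

variable (n : ℕ)

/-- normalised minimum -/
noncomputable def r (d : ℕ) : ℝ := (g n d : ℝ) / 2 ^ d

/-- infimum of the normalised number of distinct members -/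
noncomputable def L : ℝ := ⨅ d, (s n d : ℝ) / 2 ^ d

lemma bdd : BddBelow (Set.range fun d => (s n d : ℝ) / 2 ^ d) :=
  ⟨0, by rintro _ ⟨d, rfl⟩; positivity⟩

lemma L_le (d : ℕ) : L n ≤ (s n d : ℝ) / 2 ^ d := ciInf_le (bdd n) d

lemma s_le_g (hn : 3 ≤ n) (d : ℕ) : s n d ≤ g n d := by
  obtain ⟨F, hF, hc⟩ := exists_min n hn d
  rw [← hc]
  exact (s_le hF).trans (Multiset.toFinset_card_le F)

lemma L_le_r (hn : 3 ≤ n) (d : ℕ) : L n ≤ r n d := by
  refine (L_le n d).trans ?_
  unfold r
  have : (s n d : ℝ) ≤ g n d := by exact_mod_cast s_le_g n hn d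
  gcongr

lemma r_rec (hn : 3 ≤ n) (k d : ℕ) {N M : Multiset (Box n d)} (h : WC n d N M) :
    r n (k + d) ≤ r n k * ((Multiset.card M : ℝ) / 2 ^ d) + (Multiset.card N : ℝ) / 2 ^ d := by
  have h1 : (g n (k + d) : ℝ) ≤ g n k * Multiset.card M + 2 ^ k * Multiset.card N := by
    exact_mod_cast g_rec n hn k d h
  unfold r
  rw [div_le_iff₀ (by positivity)]
  refine h1.trans (le_of_eq ?_)
  rw [pow_add]
  field_simp

lemma r_upper (hn : 3 ≤ n) (ε : ℝ) (hε : 0 < ε) : ∃ K : ℕ, ∀ k, K ≤ k → r n k ≤ 1 + ε := by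
  obtain ⟨K, hK⟩ := (AsymptoticUpperBound.result n hn).2 ε hε
  refine ⟨K, fun k hk => ?_⟩
  unfold r
  rw [div_le_iff₀ (by positivity)]
  exact (hK k hk).2

lemma tendsto_r (hn : 3 ≤ n) : Tendsto (r n) atTop (𝓝 (L n)) := by
  rw [tendsto_order]
  refine ⟨fun a ha => Eventually.of_forall fun d => ha.trans_le (L_le_r n hn d), fun a ha => ?_⟩
  obtain ⟨d, hd⟩ := exists_lt_of_ciInf_lt ha
  obtain ⟨F, hF, hc⟩ := exists_min_s n hn d
  obtain ⟨N, M, _, cN, cM, hsum, hW⟩ := split hF
  have hs : (Multiset.card N : ℝ) + Multiset.card M = s n d := by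
    rw [cN, cM, ← hc, ← hsum]; push_cast; ring
  obtain ⟨q, hq⟩ : ∃ q : ℝ, q = (Multiset.card M : ℝ) / 2 ^ d := ⟨_, rfl⟩
  obtain ⟨p, hp⟩ : ∃ p : ℝ, p = (Multiset.card N : ℝ) / 2 ^ d := ⟨_, rfl⟩
  have hq0 : 0 ≤ q := by rw [hq]; positivity
  have hpq : p + q = (s n d : ℝ) / 2 ^ d := by
    rw [hp, hq, ← hs]; ring
  have hpq' : p + q < a := by rw [hpq]; exact hd
  obtain ⟨K, hK⟩ := r_upper n hn ((a - (p + q)) / (2 * (q + 1))) (by
    apply div_pos <;> linarith)
  rw [eventually_atTop]
  refine ⟨K + d, fun D hD => ?_⟩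
  obtain ⟨k, rfl⟩ : ∃ k, D = k + d := ⟨D - d, by omega⟩
  have h1 := r_rec n hn k d hW
  rw [← hq, ← hp] at h1
  have h2 := hK k (by omega)
  have h3 : (a - (p + q)) / (2 * (q + 1)) * q ≤ (a - (p + q)) / 2 := by
    rw [div_mul_eq_mul_div, div_le_div_iff₀ (by linarith) (by norm_num)]
    nlinarith
  have h4 : r n k * q ≤ (1 + (a - (p + q)) / (2 * (q + 1))) * q :=
    mul_le_mul_of_nonneg_right h2 hq0
  nlinarith

lemma L_le_one (hn : 3 ≤ n) : L n ≤ 1 := by
  refine le_of_forall_pos_le_add fun ε hε => ?_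
  obtain ⟨K, hK⟩ := r_upper n hn ε hε
  exact (L_le_r n hn K).trans (hK K le_rfl)

lemma L_mul (hn : 3 ≤ n) (d : ℕ) {F : Multiset (Box n d)} (hF : IsDoubleCover n d F) :
    L n * (2 ^ d - (times 2 F : ℝ)) ≤ times 1 F := by
  obtain ⟨N, M, _, cN, cM, hsum, hW⟩ := split hF
  have h1 : Tendsto (fun k => r n (k + d)) atTop (𝓝 (L n)) :=
    (tendsto_add_atTop_iff_nat d).2 (tendsto_r n hn)
  have h2 : Tendsto (fun k => r n k * ((Multiset.card M : ℝ) / 2 ^ d) +
      (Multiset.card N : ℝ) / 2 ^ d) atTop
      (𝓝 (L n * ((Multiset.card M : ℝ) / 2 ^ d) + (Multiset.card N : ℝ) / 2 ^ d)) :=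
    ((tendsto_r n hn).mul_const _).add_const _
  have h3 := le_of_tendsto_of_tendsto' h1 h2 (fun k => r_rec n hn k d hW)
  rw [cN, cM] at h3
  have h4 : (0 : ℝ) < 2 ^ d := by positivity
  have h5 : L n * 2 ^ d ≤ (L n * ((times 2 F : ℝ) / 2 ^ d) + (times 1 F : ℝ) / 2 ^ d) * 2 ^ d :=
    mul_le_mul_of_nonneg_right h3 h4.le
  have h6 : (L n * ((times 2 F : ℝ) / 2 ^ d) + (times 1 F : ℝ) / 2 ^ d) * 2 ^ d =
      L n * times 2 F + times 1 F := by
    field_simp
  rw [h6] at h5
  linarith

end limit

lemma times_one_pos {n d : ℕ} {F : Multiset (Box n d)} (h : 0 < times 1 F) :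
    ∃ B, F.count B = 1 := by
  unfold times at h
  obtain ⟨B, hB⟩ := Finset.card_pos.1 h
  exact ⟨B, (Finset.mem_filter.1 hB).2⟩

/-- covers with a once-member and at most `2^d + 1` distinct members -/
lemma sharp (n : ℕ) (hn : 3 ≤ n) (d : ℕ) (hd : 1 ≤ d) :
    ∃ F : Multiset (Box n d), IsDoubleCover n d F ∧ (∃ B, F.count B = 1) ∧
      distinct F ≤ 2 ^ d + 1 := by
  obtain ⟨m, rfl⟩ : ∃ m, d = 1 + m := ⟨d - 1, by omega⟩
  obtain ⟨u⟩ := exists_skel n hn 1
  obtain ⟨t⟩ := exists_skel n hn m
  have hM0 : u.M = 0 := by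
    have := u.cM
    rw [← Multiset.card_eq_zero]
    omega
  have hW : WC n (1 + m) (prd (u.N + u.A) t.A) (prd (u.Q + u.A) t.Q) := by
    refine ⟨?_, ?_, ?_⟩
    · refine proper_prd ?_ t.pA
      intro C hC
      rcases Multiset.mem_add.1 hC with hC | hC
      · exact u.pN C hC
      · exact u.pA C hC
    · refine proper_prd ?_ t.pQ
      intro C hC
      rcases Multiset.mem_add.1 hC with hC | hC
      · exact u.pQ C hC
      · exact u.pA C hC
    · intro z
      obtain ⟨x, y, rfl⟩ := split_point z
      rw [cov_prd, cov_prd, cov_add, cov_add, u.hQ x]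
      have h1 := u.hNM x
      rw [hM0, cov_zero] at h1
      have h2 := t.hQ y
      have h3 : cov u.N x + cov u.A x = 2 := by omega
      rw [h3]
      omega
  have hD := hW.double
  refine ⟨_, hD, ?_, ?_⟩
  · obtain ⟨N, M, hF, cN, cM, _, _⟩ := split hD
    apply times_one_pos
    rw [← cN]
    have hc := congrArg Multiset.card hF
    simp only [Multiset.card_add, card_prd, u.cN, u.cA, t.cA] at hc
    omega
  · refine WC.distinct_le.trans ?_
    rw [card_prd, card_prd, Multiset.card_add, Multiset.card_add, u.cN, u.cA, u.cQ, t.cA]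
    have := t.cQ
    rw [pow_add]
    omega

section lower

open Pool.Agent.Results.MP_7489fb_co.LowerAllN

variable {n d : ℕ}

/-- value of a box under a product functional -/
abbrev val (T : Fin d → Om n) (B : Box n d) : ZMod 4 := ∏ i, ev (T i) (B i)

/-- members of `N`, and members of `M` with doubled value -/
def vals (N M : Multiset (Box n d)) (T : Fin d → Om n) : Multiset (ZMod 4) :=
  N.map (val T) + M.map (fun B => 2 * val T B)

lemma vals_sum {N M : Multiset (Box n d)} (h : WC n d N M) (T : Fin d → Om n) :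
    (vals N M T).sum = 2 := by
  classical
  have h1 := sum_val (fun i => (T i).1) N
  have h2 := sum_val (fun i => (T i).1) M
  unfold vals
  rw [Multiset.sum_add, Multiset.sum_map_mul_left]
  unfold val ev
  rw [h1, h2, Finset.mul_sum, ← Finset.sum_add_distrib]
  have h4 : ∀ x : Fin d → Fin n, ((N.countP (fun B => ∀ i, x i ∈ B i) : ℕ) : ZMod 4) *
      ∏ i, (T i).1 (x i) + 2 * (((M.countP (fun B => ∀ i, x i ∈ B i) : ℕ) : ZMod 4) *
      ∏ i, (T i).1 (x i)) = 2 * ∏ i, (T i).1 (x i) := by
    intro x
    have hc := h.c x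
    unfold cov at hc
    have hc' : ((N.countP (fun B => ∀ i, x i ∈ B i) : ℕ) : ZMod 4) +
        2 * ((M.countP (fun B => ∀ i, x i ∈ B i) : ℕ) : ZMod 4) = 2 := by
      exact_mod_cast congrArg (Nat.cast : ℕ → ZMod 4) hc
    calc _ = (((N.countP (fun B => ∀ i, x i ∈ B i) : ℕ) : ZMod 4) +
        2 * ((M.countP (fun B => ∀ i, x i ∈ B i) : ℕ) : ZMod 4)) * ∏ i, (T i).1 (x i) := by ring
      _ = _ := by rw [hc']
  rw [Finset.sum_congr rfl (fun x _ => h4 x), ← Finset.mul_sum]
  have h5 : ∑ x : Fin d → Fin n, ∏ i, (T i).1 (x i) = ∏ i, ∑ j, (T i).1 j := by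
    rw [Finset.prod_univ_sum, Fintype.piFinset_univ]
  rw [h5, Finset.prod_congr rfl (fun i _ => (T i).2), Finset.prod_const_one, mul_one]

lemma od_two_mul (v : ZMod 4) : od (2 * v) = 0 := by revert v; decide

lemma tw_two_mul (v : ZMod 4) : tw (2 * v) = od v := by revert v; decide

lemma vals_od (N M : Multiset (Box n d)) (T : Fin d → Om n) :
    ((vals N M T).map od).sum = S N T := by
  unfold vals S
  rw [Multiset.map_add, Multiset.sum_add, Multiset.map_map, Multiset.map_map]
  have h0 : (M.map (od ∘ fun B => 2 * val T B)).sum = 0 := by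
    apply Multiset.sum_eq_zero
    intro v hv
    obtain ⟨B, _, rfl⟩ := Multiset.mem_map.1 hv
    exact od_two_mul _
  rw [h0, add_zero]
  congr 1
  apply Multiset.map_congr rfl
  intro B _
  exact od_prod Finset.univ _

lemma vals_tw (N M : Multiset (Box n d)) (T : Fin d → Om n) :
    ((vals N M T).map tw).sum = ∑ i, C N T i + S M T := by
  unfold vals
  rw [Multiset.map_add, Multiset.sum_add, Multiset.map_map, Multiset.map_map]
  congr 1
  · unfold C
    rw [← sum_swap]
    congr 1
    apply Multiset.map_congr rfl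
    intro B _
    exact tw_prod Finset.univ _
  · unfold S
    congr 1
    apply Multiset.map_congr rfl
    intro B _
    exact (tw_two_mul _).trans (od_prod Finset.univ _)

lemma S_even' {N M : Multiset (Box n d)} (h : WC n d N M) (T : Fin d → Om n) :
    Even (S N T) := by
  have h1 := even_od _ (vals_sum h T)
  rwa [vals_od] at h1

lemma exists_C' {N M : Multiset (Box n d)} (h : WC n d N M) (T : Fin d → Om n)
    (h0 : S N T = 0) (h1 : S M T = 0) : ∃ i, Odd (C N T i) := by
  have h2 := odd_tw _ (vals_sum h T) (by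
    have h3 := vals_od N M T
    rw [h0, Multiset.sum_eq_zero_iff] at h3
    intro v hv
    exact h3 _ (Multiset.mem_map_of_mem _ hv))
  rw [vals_tw, h1, add_zero] at h2
  by_contra hcon
  push Not at hcon
  rw [← Nat.not_even_iff_odd] at h2
  apply h2
  apply Finset.even_sum
  intro i _
  exact Nat.not_odd_iff_even.1 (hcon i)

lemma pointwise' {N M : Multiset (Box n d)} (h : WC n d N M) (T : Fin d → Om n) :
    2 ≤ S N T + 2 * S M T + 2 * ∑ i, Z N i T := by
  classical
  by_cases h0 : S N T = 0
  · by_cases h2 : S M T = 0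
    · obtain ⟨i, hi⟩ := exists_C' h T h0 h2
      have h1 : 1 ≤ ∑ i, Z N i T := by
        calc 1 = Z N i T := by unfold Z; rw [if_pos ⟨h0, hi⟩]
          _ ≤ ∑ i, Z N i T := Finset.single_le_sum (f := fun i => Z N i T)
              (fun _ _ => Nat.zero_le _) (Finset.mem_univ i)
      omega
    · omega
  · obtain ⟨k, hk⟩ := S_even' h T
    omega

lemma six' {N M : Multiset (Box n d)} (h : WC n d N M) (i : Fin d) (T : Fin d → Om n) :
    6 * ∑ t : Om n, Z N i (Function.update T i t) ≤ ∑ t : Om n, S N (Function.update T i t) := by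
  classical
  have h := line (side N i T) (by
    intro A hA
    unfold side at hA
    rw [Multiset.mem_map] at hA
    obtain ⟨B, hB, rfl⟩ := hA
    exact h.pN B (Multiset.mem_of_mem_filter hB) i) (by
    intro t
    rw [← S_update]
    exact S_even' h _)
  rw [Finset.sum_congr rfl (fun t _ => S_update N i T t)]
  refine le_trans (le_of_eq ?_) h
  congr 1
  rw [Finset.card_filter]
  apply Finset.sum_congr rfl
  intro t _
  unfold Z
  rw [S_update, C_update]

/-- **Lower bound** in terms of the members occurring once and twice. -/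
theorem lower_once_twice (hn : 2 ≤ n) {N M : Multiset (Box n d)} (h : WC n d N M) :
    6 * 2 ^ d ≤ (d + 3) * Multiset.card N + 6 * Multiset.card M := by
  classical
  let a : Fin n := ⟨0, by omega⟩
  let b : Fin n := ⟨1, by omega⟩
  have hab : a ≠ b := by intro h; simpa [a, b] using congrArg Fin.val h
  have hS1 : ({a} : Finset (Fin n)).Nonempty := Finset.singleton_nonempty a
  have hS2 : ({a} : Finset (Fin n)) ≠ Finset.univ := by
    intro h
    have : b ∈ ({a} : Finset (Fin n)) := h ▸ Finset.mem_univ b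
    exact hab (Finset.mem_singleton.1 this).symm
  obtain ⟨K, hK⟩ : ∃ K, K = ∑ t : Om n, od (ev t {a}) := ⟨_, rfl⟩
  have hcard : Fintype.card (Om n) = 2 * K := by
    rw [← sum_od {a} hS1 hS2, hK]
  have hpos : 0 < K := by
    have : 0 < Fintype.card (Om n) := Fintype.card_pos_iff.2 ⟨pt a⟩
    omega
  have hod : ∀ A : Finset (Fin n), A.Nonempty → A ≠ Finset.univ → ∑ t : Om n, od (ev t A) = K := by
    intro A h1 h2
    have := sum_od A h1 h2
    omega
  have h8 : ∀ G : Multiset (Box n d), (∀ B ∈ G, Proper B) →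
      ∑ T : Fin d → Om n, S G T = Multiset.card G * K ^ d := by
    intro G
    induction G using Multiset.induction_on with
    | empty => intro _; simp [S]
    | cons B G ih =>
      intro hG
      have h9 : ∀ T : Fin d → Om n, S (B ::ₘ G) T = (∏ i, od (ev (T i) (B i))) + S G T := by
        intro T
        simp [S]
      rw [Finset.sum_congr rfl (fun T _ => h9 T), Finset.sum_add_distrib,
        ih (fun C hC => hG C (Multiset.mem_cons_of_mem hC)), Multiset.card_cons]
      have h10 : ∑ T : Fin d → Om n, ∏ i, od (ev (T i) (B i)) = K ^ d := by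
        have h11 : ∏ i : Fin d, ∑ t : Om n, od (ev t (B i)) = K ^ d := by
          rw [Finset.prod_congr rfl (fun i _ => hod (B i)
            (hG B (Multiset.mem_cons_self _ _) i).1 (hG B (Multiset.mem_cons_self _ _) i).2),
            Finset.prod_const, Finset.card_univ, Fintype.card_fin]
        rw [← h11, Finset.prod_univ_sum, Fintype.piFinset_univ]
      rw [h10]; ring
  have hZ : ∀ i, 6 * ∑ T : Fin d → Om n, Z N i T ≤ ∑ T : Fin d → Om n, S N T := by
    intro i
    have h1 : 6 * ∑ T : Fin d → Om n, ∑ t : Om n, Z N i (Function.update T i t) ≤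
        ∑ T : Fin d → Om n, ∑ t : Om n, S N (Function.update T i t) := by
      rw [Finset.mul_sum]
      exact Finset.sum_le_sum fun T _ => six' h i T
    rw [sum_update (Z N i) i, sum_update (S N) i] at h1
    have h2 : 0 < Fintype.card (Om n) := by omega
    have h3 : Fintype.card (Om n) * (6 * ∑ T : Fin d → Om n, Z N i T) ≤
        Fintype.card (Om n) * ∑ T : Fin d → Om n, S N T := by
      calc _ = 6 * (Fintype.card (Om n) * ∑ T : Fin d → Om n, Z N i T) := by ring
        _ ≤ _ := h1
    exact Nat.le_of_mul_le_mul_left h3 h2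
  have hP : 2 * (2 * K) ^ d ≤ ∑ T : Fin d → Om n, S N T + 2 * ∑ T : Fin d → Om n, S M T +
      2 * ∑ i, ∑ T : Fin d → Om n, Z N i T := by
    calc 2 * (2 * K) ^ d = ∑ T : Fin d → Om n, 2 := by
          rw [Finset.sum_const, Finset.card_univ, Fintype.card_fun, hcard, Fintype.card_fin,
            smul_eq_mul, mul_comm]
      _ ≤ ∑ T : Fin d → Om n, (S N T + 2 * S M T + 2 * ∑ i, Z N i T) :=
          Finset.sum_le_sum fun T _ => pointwise' h T
      _ = _ := by
          rw [Finset.sum_add_distrib, Finset.sum_add_distrib, ← Finset.mul_sum, ← Finset.mul_sum,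
            Finset.sum_comm (f := fun T i => Z N i T)]
  have hZs : 6 * ∑ i, ∑ T : Fin d → Om n, Z N i T ≤ d * ∑ T : Fin d → Om n, S N T := by
    rw [Finset.mul_sum]
    calc ∑ i, 6 * ∑ T : Fin d → Om n, Z N i T ≤ ∑ i : Fin d, ∑ T : Fin d → Om n, S N T :=
          Finset.sum_le_sum fun i _ => hZ i
      _ = _ := by rw [Finset.sum_const, Finset.card_univ, Fintype.card_fin, smul_eq_mul]
  rw [h8 N h.pN] at hP hZs
  rw [h8 M h.pM] at hP
  have hfin : (6 * 2 ^ d) * K ^ d ≤
      ((d + 3) * Multiset.card N + 6 * Multiset.card M) * K ^ d := by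
    have h1 : (2 * K) ^ d = 2 ^ d * K ^ d := mul_pow 2 K d
    rw [h1] at hP
    nlinarith
  exact Nat.le_of_mul_le_mul_right hfin (by positivity)

end lower

/-- **Main result.** Let `n ≥ 3`. Write `s(n,d)` for the least number of distinct members of a
double cover of `[n]^d` by proper boxes.
* `g(n,d) / 2^d` converges to `L = inf_d s(n,d) / 2^d`;
* if a double cover of `[n]^d` has `p` members occurring once and `q` members occurring twice then
  `L (2^d - q) ≤ p`;
* the following are equivalent: `g(n,d) ≥ 2^d` for all `d` (the assertion of Q2 for this `n`);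
  `g(n,d) / 2^d → 1`; every double cover has at least `2^d` distinct members; every double cover
  with a member that occurs only once has at least `2^d + 1` distinct members;
* for every `d ≥ 1` some double cover with a member occurring only once has at most `2^d + 1`
  distinct members;
* (unconditional lower bound) a double cover of `[n]^d` with `p` members occurring once and `q`
  members occurring twice satisfies `6 * 2^d ≤ (d + 3) p + 6 q`; in particular it has at least
  `2^d` distinct members if `d ≤ 3`. -/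
theorem result (n : ℕ) (hn : 3 ≤ n) :
    Tendsto (fun d => (g n d : ℝ) / 2 ^ d) atTop (𝓝 (⨅ d, (s n d : ℝ) / 2 ^ d)) ∧
    (∀ (d : ℕ) (F : Multiset (Box n d)), IsDoubleCover n d F →
      (⨅ e, (s n e : ℝ) / 2 ^ e) * (2 ^ d - (times 2 F : ℝ)) ≤ times 1 F) ∧
    [∀ d, 2 ^ d ≤ g n d,
     Tendsto (fun d => (g n d : ℝ) / 2 ^ d) atTop (𝓝 1),
     ∀ (d : ℕ) (F : Multiset (Box n d)), IsDoubleCover n d F → 2 ^ d ≤ distinct F,
     ∀ (d : ℕ) (F : Multiset (Box n d)), IsDoubleCover n d F → (∃ B, F.count B = 1) →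
       2 ^ d + 1 ≤ distinct F].TFAE ∧
    (∀ d : ℕ, 1 ≤ d → ∃ F : Multiset (Box n d), IsDoubleCover n d F ∧ (∃ B, F.count B = 1) ∧
      distinct F ≤ 2 ^ d + 1) ∧
    (∀ (d : ℕ) (F : Multiset (Box n d)), IsDoubleCover n d F →
      6 * 2 ^ d ≤ (d + 3) * times 1 F + 6 * times 2 F ∧ (d ≤ 3 → 2 ^ d ≤ distinct F)) := by
  have hT : Tendsto (fun d => (g n d : ℝ) / 2 ^ d) atTop (𝓝 (L n)) := tendsto_r n hn
  refine ⟨hT, fun d F hF => L_mul n hn d hF, ?_, sharp n hn, fun d F hF => ?_⟩
  swap
  · obtain ⟨N, M, _, cN, cM, hsum, hW⟩ := split hF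
    have h1 := lower_once_twice (by omega) hW
    rw [cN, cM] at h1
    refine ⟨h1, fun hd => ?_⟩
    have h2 : (d + 3) * times 1 F ≤ 6 * times 1 F := Nat.mul_le_mul_right _ (by omega)
    omega
  have h12 : (∀ d, 2 ^ d ≤ g n d) → Tendsto (fun d => (g n d : ℝ) / 2 ^ d) atTop (𝓝 1) := by
    intro h
    have h1 : 1 ≤ L n := by
      refine ge_of_tendsto' hT fun d => ?_
      rw [le_div_iff₀ (by positivity), one_mul]
      exact_mod_cast h d
    have h2 : L n = 1 := le_antisymm (L_le_one n hn) h1
    rw [h2] at hT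
    exact hT
  have h23 : Tendsto (fun d => (g n d : ℝ) / 2 ^ d) atTop (𝓝 1) →
      ∀ (d : ℕ) (F : Multiset (Box n d)), IsDoubleCover n d F → 2 ^ d ≤ distinct F := by
    intro h d F hF
    have h1 : L n = 1 := tendsto_nhds_unique hT h
    have h2 := L_le n d
    rw [h1, le_div_iff₀ (by positivity), one_mul] at h2
    have h3 : 2 ^ d ≤ s n d := by exact_mod_cast h2
    exact h3.trans (s_le hF)
  have h34 : (∀ (d : ℕ) (F : Multiset (Box n d)), IsDoubleCover n d F → 2 ^ d ≤ distinct F) →
      ∀ (d : ℕ) (F : Multiset (Box n d)), IsDoubleCover n d F → (∃ B, F.count B = 1) →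
        2 ^ d + 1 ≤ distinct F := by
    intro h d F hF hB
    by_contra hcon
    have h1 := h d F hF
    obtain ⟨N, M, hFNM, cN, cM, hsum, hW⟩ := split hF
    obtain ⟨A, hA⟩ : ∃ A, A ∈ N := by
      rw [← Multiset.card_pos_iff_exists_mem, cN]
      obtain ⟨B, hB⟩ := hB
      unfold times
      rw [Finset.card_pos]
      refine ⟨B, Finset.mem_filter.2 ⟨?_, hB⟩⟩
      rw [Multiset.mem_toFinset, ← Multiset.count_pos, hB]
      exact one_pos
    obtain ⟨N', M', hW', hc'⟩ := compose hW hW A hA A hA
    have h2 := h (d + d) _ hW'.double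
    have h3 := h2.trans WC.distinct_le
    omega
  have h43 : (∀ (d : ℕ) (F : Multiset (Box n d)), IsDoubleCover n d F → (∃ B, F.count B = 1) →
        2 ^ d + 1 ≤ distinct F) →
      ∀ (d : ℕ) (F : Multiset (Box n d)), IsDoubleCover n d F → 2 ^ d ≤ distinct F := by
    intro h d F hF
    by_cases hB : ∃ B, F.count B = 1
    · exact (Nat.le_succ _).trans (h d F hF hB)
    · obtain ⟨N, M, hFNM, cN, cM, hsum, hW⟩ := split hF
      have h0 : times 1 F = 0 := by
        by_contra hne
        exact hB (times_one_pos (Nat.pos_of_ne_zero hne))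
      have hN : N = 0 := by
        rw [← Multiset.card_eq_zero, cN, h0]
      subst hN
      have h1 := partition_lower n d (by omega) M hW.pM (fun x => by
        have := hW.c x
        rw [cov_zero] at this
        omega)
      rw [← hsum, h0, ← cM, zero_add]
      exact h1
  have h31 : (∀ (d : ℕ) (F : Multiset (Box n d)), IsDoubleCover n d F → 2 ^ d ≤ distinct F) →
      ∀ d, 2 ^ d ≤ g n d := by
    intro h d
    obtain ⟨F, hF, hc⟩ := exists_min n hn d
    rw [← hc]
    exact (h d F hF).trans (Multiset.toFinset_card_le F)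
  tfae_have 1 → 2 := h12
  tfae_have 2 → 3 := h23
  tfae_have 3 → 4 := h34
  tfae_have 4 → 3 := h43
  tfae_have 3 → 1 := h31
  tfae_finish

end Pool.Agent.Results.MP_7489fb_co.DistinctMembers
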