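import Mathlib
import Pool.Agent.Results.MP_7489fb_co.DistinctMembers

set_option autoImplicit false

/-!
# A lower bound for double covers of `[3]^d`, asymptotically `12 * 2^d / d`
-/

namespace Pool.Agent.Results.MP_7489fb_co.TernaryLowerBound

open Pool.Agent.Results.MP_7489fb_co.AsymptoticUpperBound
open Pool.Agent.Results.MP_7489fb_co.ATwoSided
open Pool.Agent.Results.MP_7489fb_co.LowerAllN
open Pool.Agent.Results.MP_7489fb_co.DistinctMembers

/-- the functional with one value `-1` and two values `1` -/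
def st (a : Fin 3) : Om 3 := ⟨fun j => if j = a then 3 else 1, by revert a; decide⟩

/-- the functionals in use: points, and the functionals `st a` -/
def fn (w : Bool × Fin 3) : Om 3 := if w.1 then st w.2 else pt w.2

/-- their weights -/
noncomputable def wt (t : ℝ) (w : Bool × Fin 3) : ℝ := if w.1 then t / 3 else (1 - t) / 3

lemma od_pt (A : Finset (Fin 3)) : ∑ a : Fin 3, od (ev (pt a) A) = A.card := by
  have : ∀ a : Fin 3, od (ev (pt a) A) = if a ∈ A then 1 else 0 := by
    intro a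
    rw [ev_pt]
    split_ifs <;> decide
  rw [Finset.sum_congr rfl (fun a _ => this a)]
  simp

lemma tw_pt (A : Finset (Fin 3)) (a : Fin 3) : tw (ev (pt a) A) = 0 := by
  rw [ev_pt]
  split_ifs <;> decide

lemma od_st (A : Finset (Fin 3)) (h1 : A.Nonempty) (h2 : A ≠ Finset.univ) :
    ∑ a : Fin 3, od (ev (st a) A) = if A.card = 2 then 0 else 3 := by
  revert h1 h2
  unfold ev st
  revert A
  decide

lemma tw_st (A : Finset (Fin 3)) (h1 : A.Nonempty) (h2 : A ≠ Finset.univ) :
    ∑ a : Fin 3, tw (ev (st a) A) = if A.card = 2 then 1 else 0 := by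
  revert h1 h2
  unfold ev st
  revert A
  decide

lemma card_one (A : Finset (Fin 3)) (h1 : A.Nonempty) (h2 : A ≠ Finset.univ)
    (h3 : A.card ≠ 2) : A.card = 1 := by
  revert h1 h2 h3
  revert A
  decide

/-- probability of an odd value -/
noncomputable def po (t : ℝ) (A : Finset (Fin 3)) : ℝ :=
  if A.card = 2 then 2 * (1 - t) / 3 else (1 + 2 * t) / 3

/-- probability of the value two -/
noncomputable def pw (t : ℝ) (A : Finset (Fin 3)) : ℝ := if A.card = 2 then t / 3 else 0

lemma exp_od (t : ℝ) (A : Finset (Fin 3)) (h1 : A.Nonempty) (h2 : A ≠ Finset.univ) :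
    ∑ w : Bool × Fin 3, wt t w * (od (ev (fn w) A) : ℝ) = po t A := by
  rw [Fintype.sum_prod_type, Fintype.sum_bool]
  have e1 : ∑ a : Fin 3, wt t (true, a) * (od (ev (fn (true, a)) A) : ℝ) =
      t / 3 * ((∑ a : Fin 3, od (ev (st a) A) : ℕ) : ℝ) := by
    push_cast
    rw [Finset.mul_sum]
    rfl
  have e2 : ∑ a : Fin 3, wt t (false, a) * (od (ev (fn (false, a)) A) : ℝ) =
      (1 - t) / 3 * ((∑ a : Fin 3, od (ev (pt a) A) : ℕ) : ℝ) := by
    push_cast
    rw [Finset.mul_sum]
    rfl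
  rw [e1, e2, od_st A h1 h2, od_pt]
  unfold po
  by_cases h : A.card = 2
  · rw [if_pos h, if_pos h, h]; push_cast; ring
  · rw [if_neg h, if_neg h, card_one A h1 h2 h]; push_cast; ring

lemma exp_tw (t : ℝ) (A : Finset (Fin 3)) (h1 : A.Nonempty) (h2 : A ≠ Finset.univ) :
    ∑ w : Bool × Fin 3, wt t w * (tw (ev (fn w) A) : ℝ) = pw t A := by
  rw [Fintype.sum_prod_type, Fintype.sum_bool]
  have e1 : ∑ a : Fin 3, wt t (true, a) * (tw (ev (fn (true, a)) A) : ℝ) =
      t / 3 * ((∑ a : Fin 3, tw (ev (st a) A) : ℕ) : ℝ) := by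
    push_cast
    rw [Finset.mul_sum]
    rfl
  have e2 : ∑ a : Fin 3, wt t (false, a) * (tw (ev (fn (false, a)) A) : ℝ) = 0 := by
    apply Finset.sum_eq_zero
    intro a _
    have : tw (ev (fn (false, a)) A) = 0 := tw_pt A a
    rw [this]; simp
  rw [e1, e2, tw_st A h1 h2]
  unfold pw
  by_cases h : A.card = 2
  · rw [if_pos h, if_pos h]; push_cast; ring
  · rw [if_neg h, if_neg h]; push_cast; ring

lemma wt_sum (t : ℝ) : ∑ w : Bool × Fin 3, wt t w = 1 := by
  rw [Fintype.sum_prod_type, Fintype.sum_bool]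
  simp only [wt]
  simp
  ring

lemma wt_nonneg (t : ℝ) (h0 : 0 ≤ t) (h1 : t ≤ 1) (w : Bool × Fin 3) : 0 ≤ wt t w := by
  unfold wt
  split_ifs
  · positivity
  · have : 0 ≤ 1 - t := by linarith
    positivity

variable {d : ℕ}

/-- weight of a product functional -/
noncomputable def W (t : ℝ) (T : Fin d → Bool × Fin 3) : ℝ := ∏ i, wt t (T i)

lemma W_sum (t : ℝ) : ∑ T : Fin d → Bool × Fin 3, W t T = 1 := by
  unfold W
  rw [← Fintype.piFinset_univ, ← Finset.prod_univ_sum]
  simp [wt_sum]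

lemma W_nonneg (t : ℝ) (h0 : 0 ≤ t) (h1 : t ≤ 1) (T : Fin d → Bool × Fin 3) : 0 ≤ W t T :=
  Finset.prod_nonneg fun _ _ => wt_nonneg t h0 h1 _

/-- expectation of a product -/
lemma exp_prod (t : ℝ) (f : Fin d → (Bool × Fin 3) → ℝ) :
    ∑ T : Fin d → Bool × Fin 3, W t T * ∏ i, f i (T i) =
      ∏ i, ∑ w : Bool × Fin 3, wt t w * f i w := by
  rw [Finset.prod_univ_sum, Fintype.piFinset_univ]
  apply Finset.sum_congr rfl
  intro T _
  unfold W
  rw [Finset.prod_mul_distrib]

lemma mswap {α ι : Type*} (I : Finset ι) (F : Multiset α) (f : ι → α → ℝ) :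
    (F.map (fun B => ∑ i ∈ I, f i B)).sum = ∑ i ∈ I, (F.map (f i)).sum := by
  induction F using Multiset.induction_on with
  | empty => simp
  | cons a s ih =>
    simp only [Multiset.map_cons, Multiset.sum_cons, Finset.sum_add_distrib]
    rw [ih]

lemma exp_multiset {α : Type*} (t : ℝ) (F : Multiset α) (f : (Fin d → Bool × Fin 3) → α → ℝ) :
    ∑ T : Fin d → Bool × Fin 3, W t T * (F.map (f T)).sum =
      (F.map (fun B => ∑ T : Fin d → Bool × Fin 3, W t T * f T B)).sum := by
  induction F using Multiset.induction_on with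
  | empty => simp
  | cons a s ih =>
    simp only [Multiset.map_cons, Multiset.sum_cons, mul_add, Finset.sum_add_distrib]
    rw [ih]

/-- pointwise inequality -/
lemma pointwise3 {N M : Multiset (Box 3 d)} (h : WC 3 d N M) (T : Fin d → Om 3) :
    2 ≤ S N T + 2 * S M T + 2 * ∑ i, C N T i := by
  classical
  by_cases h0 : S N T = 0
  · by_cases h2 : S M T = 0
    · obtain ⟨i, hi⟩ := exists_C' h T h0 h2
      have h1 : 1 ≤ ∑ i, C N T i := by
        calc 1 ≤ C N T i := hi.pos
          _ ≤ ∑ i, C N T i := Finset.single_le_sum (f := fun i => C N T i)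
              (fun _ _ => Nat.zero_le _) (Finset.mem_univ i)
      omega
    · omega
  · obtain ⟨k, hk⟩ := S_even' h T
    omega

lemma exp_S (t : ℝ) (F : Multiset (Box 3 d)) (hF : ∀ B ∈ F, Proper B) :
    ∑ T : Fin d → Bool × Fin 3, W t T * (S F (fun i => fn (T i)) : ℝ) =
      (F.map (fun B => ∏ i, po t (B i))).sum := by
  have h1 : ∀ T : Fin d → Bool × Fin 3, (S F (fun i => fn (T i)) : ℝ) =
      (F.map (fun B : Box 3 d => ∏ i, (od (ev (fn (T i)) (B i)) : ℝ))).sum := by
    intro T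
    unfold S
    rw [Nat.cast_multiset_sum, Multiset.map_map]
    congr 1
    apply Multiset.map_congr rfl
    intro B _
    simp [Function.comp]
  rw [Finset.sum_congr rfl (fun T _ => by rw [h1 T]), exp_multiset]
  congr 1
  apply Multiset.map_congr rfl
  intro B hB
  rw [exp_prod t (fun i w => (od (ev (fn w) (B i)) : ℝ))]
  apply Finset.prod_congr rfl
  intro i _
  exact exp_od t (B i) (hF B hB i).1 (hF B hB i).2

lemma exp_C (t : ℝ) (F : Multiset (Box 3 d)) (hF : ∀ B ∈ F, Proper B) (i : Fin d) :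
    ∑ T : Fin d → Bool × Fin 3, W t T * (C F (fun j => fn (T j)) i : ℝ) =
      (F.map (fun B => pw t (B i) * ∏ j ∈ Finset.univ.erase i, po t (B j))).sum := by
  classical
  have h1 : ∀ T : Fin d → Bool × Fin 3, (C F (fun i => fn (T i)) i : ℝ) =
      (F.map (fun B : Box 3 d => ∏ j, (if j = i then (tw (ev (fn (T j)) (B j)) : ℝ) else
        (od (ev (fn (T j)) (B j)) : ℝ)))).sum := by
    intro T
    unfold C
    rw [Nat.cast_multiset_sum, Multiset.map_map]
    congr 1
    apply Multiset.map_congr rfl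
    intro B _
    rw [← Finset.mul_prod_erase Finset.univ _ (Finset.mem_univ i), if_pos rfl]
    simp only [Function.comp]
    push_cast
    congr 1
    apply Finset.prod_congr rfl
    intro j hj
    rw [if_neg (Finset.ne_of_mem_erase hj)]
  rw [Finset.sum_congr rfl (fun T _ => by rw [h1 T]), exp_multiset]
  congr 1
  apply Multiset.map_congr rfl
  intro B hB
  rw [exp_prod t (fun j w => if j = i then (tw (ev (fn w) (B j)) : ℝ) else
    (od (ev (fn w) (B j)) : ℝ)), ← Finset.mul_prod_erase Finset.univ _ (Finset.mem_univ i)]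
  congr 1
  · simp only [if_true]
    exact exp_tw t (B i) (hF B hB i).1 (hF B hB i).2
  · apply Finset.prod_congr rfl
    intro j hj
    simp only [if_neg (Finset.ne_of_mem_erase hj)]
    exact exp_od t (B j) (hF B hB j).1 (hF B hB j).2

/-- **Weighted inequality**, one for every `t`. -/
theorem weighted (t : ℝ) (h0 : 0 ≤ t) (h1 : t ≤ 1) {N M : Multiset (Box 3 d)}
    (h : WC 3 d N M) :
    2 ≤ (N.map (fun B => ∏ i, po t (B i) +
        2 * ∑ i, pw t (B i) * ∏ j ∈ Finset.univ.erase i, po t (B j))).sum +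
      (M.map (fun B => 2 * ∏ i, po t (B i))).sum := by
  classical
  have hS := exp_S t N h.pN
  have hM := exp_S t M h.pM
  have hC := fun i => exp_C t N h.pN i
  have key : ∑ T : Fin d → Bool × Fin 3, W t T * 2 ≤
      ∑ T : Fin d → Bool × Fin 3, W t T * ((S N (fun i => fn (T i)) : ℝ) +
        2 * (S M (fun i => fn (T i)) : ℝ) + 2 * ∑ i, (C N (fun i => fn (T i)) i : ℝ)) := by
    apply Finset.sum_le_sum
    intro T _
    apply mul_le_mul_of_nonneg_left _ (W_nonneg t h0 h1 T)
    exact_mod_cast pointwise3 h (fun i => fn (T i))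
  rw [← Finset.sum_mul, W_sum, one_mul] at key
  refine key.trans (le_of_eq ?_)
  simp only [mul_add, Finset.sum_add_distrib, Finset.mul_sum]
  rw [hS, Multiset.sum_map_add]
  have e2 : ∑ T : Fin d → Bool × Fin 3, W t T * (2 * (S M (fun i => fn (T i)) : ℝ)) =
      (M.map (fun B => 2 * ∏ i, po t (B i))).sum := by
    rw [Multiset.sum_map_mul_left, ← hM, Finset.mul_sum]
    apply Finset.sum_congr rfl
    intro T _
    ring
  have e3 : ∑ T : Fin d → Bool × Fin 3, ∑ i, W t T * (2 * (C N (fun i => fn (T i)) i : ℝ)) =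
      (N.map (fun B => ∑ i, 2 * (pw t (B i) * ∏ j ∈ Finset.univ.erase i, po t (B j)))).sum := by
    rw [Finset.sum_comm, mswap]
    apply Finset.sum_congr rfl
    intro i _
    rw [Multiset.sum_map_mul_left, ← hC i, Finset.mul_sum]
    apply Finset.sum_congr rfl
    intro T _
    ring
  rw [e2, e3]
  ring

/-- sign of a side -/
noncomputable def ep (A : Finset (Fin 3)) : ℝ := if A.card = 2 then -1 else 1

lemma exp_lower (y : ℝ) (h : |y| ≤ 1) : 1 + y + y ^ 2 / 3 ≤ Real.exp y := by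
  have h1 := Real.exp_bound h (n := 5) (by norm_num)
  have h2 : ∑ m ∈ Finset.range 5, y ^ m / (m.factorial : ℝ) =
      1 + y + y ^ 2 / 2 + y ^ 3 / 6 + y ^ 4 / 24 := by
    simp [Finset.sum_range_succ, Nat.factorial]
  rw [h2] at h1
  have h3 : ((Nat.succ 5 : ℕ) : ℝ) / ((Nat.factorial 5 : ℕ) * ((5 : ℕ) : ℝ)) = 1 / 100 := by
    norm_num [Nat.factorial]
  rw [h3] at h1
  have h4 := (abs_le.1 h1).1
  have h5 : |y| ^ 5 ≤ y ^ 4 := by
    have : |y| ^ 5 = |y| * y ^ 4 := by
      rw [pow_succ, mul_comm, ← abs_pow, abs_of_nonneg (by positivity : (0 : ℝ) ≤ y ^ 4)]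
    rw [this]
    have h6 : 0 ≤ y ^ 4 := by positivity
    nlinarith
  have h7 : 0 ≤ y ^ 2 * (y + 1) := mul_nonneg (sq_nonneg y) (by linarith [(abs_le.1 h).1])
  have h8 : 0 ≤ y ^ 4 := by positivity
  nlinarith

section analytic

variable (hd : 9 ≤ d)

include hd

lemma po_le (A : Finset (Fin 3)) :
    po (((d : ℝ) + 3) / (4 * d)) A ≤ 1 / 2 * Real.exp (ep A / d) := by
  have hd' : (9 : ℝ) ≤ d := by exact_mod_cast hd
  have hpos : (0 : ℝ) < d := by linarith
  unfold po ep
  split_ifs with h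
  · have e1 := Real.add_one_le_exp (-1 / (d : ℝ))
    have e2 : 2 * (1 - ((d : ℝ) + 3) / (4 * d)) / 3 = 1 / 2 * (-1 / (d : ℝ) + 1) := by
      field_simp
      ring
    rw [e2]
    linarith
  · have e1 := Real.add_one_le_exp (1 / (d : ℝ))
    have e2 : (1 + 2 * (((d : ℝ) + 3) / (4 * d))) / 3 = 1 / 2 * (1 / (d : ℝ) + 1) := by
      field_simp
      ring
    rw [e2]
    linarith

lemma po_nonneg (A : Finset (Fin 3)) : 0 ≤ po (((d : ℝ) + 3) / (4 * d)) A := by
  have hd' : (9 : ℝ) ≤ d := by exact_mod_cast hd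
  have hpos : (0 : ℝ) < d := by linarith
  unfold po
  split_ifs with h
  · have e2 : 2 * (1 - ((d : ℝ) + 3) / (4 * d)) / 3 = (d - 1) / (2 * d) := by
      field_simp
      ring
    rw [e2]
    apply div_nonneg <;> linarith
  · positivity

lemma prod_po_le (s : Finset (Fin d)) (B : Box 3 d) :
    ∏ i ∈ s, po (((d : ℝ) + 3) / (4 * d)) (B i) ≤
      (1 / 2) ^ s.card * Real.exp ((∑ i ∈ s, ep (B i)) / d) := by
  calc ∏ i ∈ s, po (((d : ℝ) + 3) / (4 * d)) (B i)
      ≤ ∏ i ∈ s, (1 / 2 * Real.exp (ep (B i) / d)) :=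
        Finset.prod_le_prod (fun i _ => po_nonneg hd _) (fun i _ => po_le hd _)
    _ = _ := by
        rw [Finset.prod_mul_distrib, Finset.prod_const, ← Real.exp_sum, Finset.sum_div]

end analytic

lemma ep_sum (B : Box 3 d) :
    ∑ i, ep (B i) = d - 2 * ((Finset.univ.filter (fun i => (B i).card = 2)).card : ℝ) := by
  have : ∀ i, ep (B i) = 1 - 2 * (if (B i).card = 2 then 1 else 0) := by
    intro i
    unfold ep
    split_ifs <;> norm_num
  rw [Finset.sum_congr rfl (fun i _ => this i), Finset.sum_sub_distrib, ← Finset.mul_sum]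
  simp

lemma coefN (hd : 9 ≤ d) (B : Box 3 d) :
    ∏ i, po (((d : ℝ) + 3) / (4 * d)) (B i) +
        2 * ∑ i, pw (((d : ℝ) + 3) / (4 * d)) (B i) *
          ∏ j ∈ Finset.univ.erase i, po (((d : ℝ) + 3) / (4 * d)) (B j) ≤
      (1 / 2) ^ d * (((d : ℝ) + 14) / 6) := by
  classical
  have hd' : (9 : ℝ) ≤ d := by exact_mod_cast hd
  have hpos : (0 : ℝ) < d := by linarith
  set k : ℕ := (Finset.univ.filter (fun i => (B i).card = 2)).card with hk
  have hkd : (k : ℝ) ≤ d := by
    have : k ≤ d := (Finset.card_le_univ _).trans_eq (Fintype.card_fin d)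
    exact_mod_cast this
  have hk0 : (0 : ℝ) ≤ k := Nat.cast_nonneg _
  have hsum := ep_sum B
  rw [← hk] at hsum
  set y : ℝ := 2 * k / d - 1 with hy
  have hK : (∑ i, ep (B i)) / d = -y := by
    rw [hsum, hy]
    field_simp
    ring
  have h1 := prod_po_le hd Finset.univ B
  rw [hK, Finset.card_univ, Fintype.card_fin] at h1
  have h2 : ∀ i, pw (((d : ℝ) + 3) / (4 * d)) (B i) *
      ∏ j ∈ Finset.univ.erase i, po (((d : ℝ) + 3) / (4 * d)) (B j) ≤
      (if (B i).card = 2 then 1 else 0) *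
        (((d : ℝ) + 3) / (6 * d) * ((1 / 2) ^ d * Real.exp (-y + 1 / d))) := by
    intro i
    unfold pw
    split_ifs with h
    · have h3 := prod_po_le hd (Finset.univ.erase i) B
      have h4 : ∑ j ∈ Finset.univ.erase i, ep (B j) = ∑ j, ep (B j) + 1 := by
        rw [← Finset.add_sum_erase Finset.univ (fun j => ep (B j)) (Finset.mem_univ i)]
        unfold ep
        rw [if_pos h]
        ring
      have h4' : (∑ j ∈ Finset.univ.erase i, ep (B j)) / d = -y + 1 / d := by
        rw [h4, add_div, hK]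
      rw [h4', Finset.card_erase_of_mem (Finset.mem_univ i), Finset.card_univ,
        Fintype.card_fin] at h3
      have h5 : ((1 : ℝ) / 2) ^ (d - 1) = 2 * (1 / 2) ^ d := by
        obtain ⟨e, rfl⟩ : ∃ e, d = e + 1 := ⟨d - 1, by omega⟩
        rw [Nat.add_sub_cancel, pow_succ]
        ring
      rw [h5] at h3
      calc (((d : ℝ) + 3) / (4 * d)) / 3 *
            ∏ j ∈ Finset.univ.erase i, po (((d : ℝ) + 3) / (4 * d)) (B j)
          ≤ (((d : ℝ) + 3) / (4 * d)) / 3 * (2 * (1 / 2) ^ d * Real.exp (-y + 1 / d)) :=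
            mul_le_mul_of_nonneg_left h3 (by positivity)
        _ = _ := by
            field_simp
            ring
    · simp
  have h6 : ∑ i, pw (((d : ℝ) + 3) / (4 * d)) (B i) *
      ∏ j ∈ Finset.univ.erase i, po (((d : ℝ) + 3) / (4 * d)) (B j) ≤
      k * (((d : ℝ) + 3) / (6 * d) * ((1 / 2) ^ d * Real.exp (-y + 1 / d))) := by
    refine (Finset.sum_le_sum fun i _ => h2 i).trans (le_of_eq ?_)
    rw [← Finset.sum_mul, Finset.sum_boole]
  have hyk : (k : ℝ) = d * (1 + y) / 2 := by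
    rw [hy]
    field_simp
    ring
  have hy1 : -1 ≤ y := by
    rw [hy]
    have : 0 ≤ 2 * (k : ℝ) / d := div_nonneg (by linarith) hpos.le
    linarith
  have hy2 : y ≤ 1 := by
    rw [hy]
    have : 2 * (k : ℝ) / d ≤ 2 := by
      rw [div_le_iff₀ hpos]
      linarith
    linarith
  have hexp := exp_lower y (abs_le.2 ⟨hy1, hy2⟩)
  have hE : ((d : ℝ) + 3) * Real.exp (1 / d) ≤ d + 9 / 2 := by
    have hx : |1 / (d : ℝ)| ≤ 1 := by
      rw [abs_of_nonneg (by positivity), div_le_one hpos]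
      linarith
    have h7 := (abs_le.1 (Real.abs_exp_sub_one_sub_id_le hx)).2
    have h8 : Real.exp (1 / (d : ℝ)) ≤ 1 + 1 / d + (1 / d) ^ 2 := by linarith
    calc ((d : ℝ) + 3) * Real.exp (1 / d) ≤ ((d : ℝ) + 3) * (1 + 1 / d + (1 / d) ^ 2) :=
          mul_le_mul_of_nonneg_left h8 (by linarith)
      _ ≤ _ := by
          have h9 : 1 / (d : ℝ) ≤ 1 / 9 := one_div_le_one_div_of_le (by norm_num) hd'
          have h10 : 0 ≤ 1 / (d : ℝ) := by positivity
          have h11 : (d : ℝ) * (1 / d) = 1 := by field_simp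
          have h12 : ((d : ℝ) + 3) * (1 + 1 / d + (1 / d) ^ 2) =
              d + 3 + 1 + 4 * (1 / d) + 3 * (1 / d) ^ 2 := by
            field_simp
            ring
          rw [h12]
          nlinarith
  have hmain : 6 + (1 + y) * (((d : ℝ) + 3) * Real.exp (1 / d)) ≤ (d + 14) * Real.exp y := by
    calc 6 + (1 + y) * (((d : ℝ) + 3) * Real.exp (1 / d)) ≤ 6 + (1 + y) * (d + 9 / 2) := by
          have := mul_le_mul_of_nonneg_left hE (by linarith : (0 : ℝ) ≤ 1 + y)
          linarith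
      _ ≤ (d + 14) * (1 + y + y ^ 2 / 3) := by
          nlinarith [sq_nonneg (y + 57 / 92), mul_nonneg (by linarith : (0 : ℝ) ≤ (d : ℝ) - 9)
            (sq_nonneg y)]
      _ ≤ (d + 14) * Real.exp y := mul_le_mul_of_nonneg_left hexp (by linarith)
  calc _ ≤ (1 / 2) ^ d * Real.exp (-y) +
        2 * (k * (((d : ℝ) + 3) / (6 * d) * ((1 / 2) ^ d * Real.exp (-y + 1 / d)))) := by
        linarith
    _ = (1 / 2) ^ d * (Real.exp (-y) *
        (6 + (1 + y) * (((d : ℝ) + 3) * Real.exp (1 / d)))) / 6 := by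
        rw [Real.exp_add, hyk]
        field_simp
    _ ≤ (1 / 2) ^ d * (Real.exp (-y) * ((d + 14) * Real.exp y)) / 6 := by
        apply div_le_div_of_nonneg_right _ (by norm_num)
        apply mul_le_mul_of_nonneg_left _ (by positivity)
        exact mul_le_mul_of_nonneg_left hmain (Real.exp_pos _).le
    _ = (1 / 2) ^ d * (((d : ℝ) + 14) / 6) := by
        have : Real.exp (-y) * ((d + 14) * Real.exp y) = (d : ℝ) + 14 := by
          rw [mul_left_comm, ← Real.exp_add]
          simp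
        rw [this]
        ring

lemma coefM (hd : 9 ≤ d) (B : Box 3 d) :
    2 * ∏ i, po (((d : ℝ) + 3) / (4 * d)) (B i) ≤ (1 / 2) ^ d * (33 / 6) := by
  have hd' : (9 : ℝ) ≤ d := by exact_mod_cast hd
  have hpos : (0 : ℝ) < d := by linarith
  have h1 := prod_po_le hd Finset.univ B
  rw [Finset.card_univ, Fintype.card_fin] at h1
  have h2 : (∑ i, ep (B i)) / d ≤ 1 := by
    rw [div_le_one hpos, ep_sum]
    have : (0 : ℝ) ≤ ((Finset.univ.filter (fun i => (B i).card = 2)).card : ℝ) :=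
      Nat.cast_nonneg _
    linarith
  have h3 : Real.exp ((∑ i, ep (B i)) / d) ≤ 33 / 12 := by
    have := Real.exp_le_exp.2 h2
    have := Real.exp_one_lt_d9
    linarith
  have h4 : (0 : ℝ) ≤ (1 / 2) ^ d := by positivity
  nlinarith [mul_le_mul_of_nonneg_left h3 h4]

lemma main_once_twice (hd : 9 ≤ d) {N M : Multiset (Box 3 d)} (h : WC 3 d N M) :
    12 * 2 ^ d ≤ (d + 14) * Multiset.card N + 33 * Multiset.card M := by
  have hd' : (9 : ℝ) ≤ d := by exact_mod_cast hd
  have hpos : (0 : ℝ) < d := by linarith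
  have h0 := weighted (((d : ℝ) + 3) / (4 * d)) (by positivity) (by
    rw [div_le_one (by positivity)]
    linarith) h
  have h1 := Multiset.sum_le_card_nsmul (N.map (fun B => ∏ i, po (((d : ℝ) + 3) / (4 * d)) (B i) +
        2 * ∑ i, pw (((d : ℝ) + 3) / (4 * d)) (B i) *
          ∏ j ∈ Finset.univ.erase i, po (((d : ℝ) + 3) / (4 * d)) (B j)))
      ((1 / 2) ^ d * (((d : ℝ) + 14) / 6)) (by
        intro x hx
        obtain ⟨B, _, rfl⟩ := Multiset.mem_map.1 hx
        exact coefN hd B)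
  have h2 := Multiset.sum_le_card_nsmul
      (M.map (fun B => 2 * ∏ i, po (((d : ℝ) + 3) / (4 * d)) (B i)))
      ((1 / 2) ^ d * (33 / 6)) (by
        intro x hx
        obtain ⟨B, _, rfl⟩ := Multiset.mem_map.1 hx
        exact coefM hd B)
  rw [Multiset.card_map, nsmul_eq_mul] at h1 h2
  have h3 : (2 : ℝ) ≤ Multiset.card N * ((1 / 2) ^ d * (((d : ℝ) + 14) / 6)) +
      Multiset.card M * ((1 / 2) ^ d * (33 / 6)) := by linarith
  have h4 : (0 : ℝ) < 2 ^ d := by positivity
  have h5 : ((1 : ℝ) / 2) ^ d * 2 ^ d = 1 := by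
    rw [← mul_pow]
    norm_num
  have h6 : (12 : ℝ) * 2 ^ d ≤ (d + 14) * Multiset.card N + 33 * Multiset.card M := by
    have h7 := mul_le_mul_of_nonneg_right h3 h4.le
    have h8 : (Multiset.card N * ((1 / 2) ^ d * (((d : ℝ) + 14) / 6)) +
      Multiset.card M * ((1 / 2) ^ d * (33 / 6))) * 2 ^ d =
      (((1 : ℝ) / 2) ^ d * 2 ^ d) * (Multiset.card N * (((d : ℝ) + 14) / 6) +
      Multiset.card M * (33 / 6)) := by ring
    rw [h8, h5] at h7
    linarith
  exact_mod_cast h6

/-- **Lower bounds for double covers of `[3]^d`.**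
* A double cover of `[3]^d` by proper boxes with `p` members occurring once and `q` members
  occurring twice satisfies `12 * 2^d ≤ (d + 14) p + 33 q`;
* it has at least `12 * 2^d / (d + 14)` members, counted with multiplicity, so
  `g(3,d) ≥ 12 * 2^d / (d + 14)`, and for `d ≥ 19` it has at least that many distinct members;
* for every `c < 12`, `g(3,d) ≥ c * 2^d / d` for all large `d`. -/
theorem result :
    (∀ (d : ℕ) (F : Multiset (Box 3 d)), IsDoubleCover 3 d F →
      12 * 2 ^ d ≤ (d + 14) * times 1 F + 33 * times 2 F ∧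
      12 * 2 ^ d ≤ (d + 14) * Multiset.card F ∧
      (19 ≤ d → 12 * 2 ^ d ≤ (d + 14) * distinct F)) ∧
    (∀ d : ℕ, 12 * 2 ^ d ≤ (d + 14) * g 3 d) ∧
    (∀ c : ℝ, c < 12 → ∀ᶠ d : ℕ in Filter.atTop, c * 2 ^ d / d ≤ (g 3 d : ℝ)) := by
  have key : ∀ (d : ℕ) (F : Multiset (Box 3 d)), IsDoubleCover 3 d F →
      12 * 2 ^ d ≤ (d + 14) * times 1 F + 33 * times 2 F ∧
      12 * 2 ^ d ≤ (d + 14) * Multiset.card F ∧
      (19 ≤ d → 12 * 2 ^ d ≤ (d + 14) * distinct F) := by
    intro d F hF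
    obtain ⟨N, M, hFNM, cN, cM, hsum, hW⟩ := split hF
    have hcard : Multiset.card F = times 1 F + 2 * times 2 F := by
      rw [hFNM, Multiset.card_add, Multiset.card_add, cN, cM, ← hFNM]
      ring
    have old := lower_once_twice (by norm_num) hW
    rw [cN, cM] at old
    rw [hcard, ← hsum]
    by_cases hd : 9 ≤ d
    · have h1 := main_once_twice hd hW
      rw [cN, cM] at h1
      refine ⟨h1, h1.trans ?_, fun h19 => h1.trans ?_⟩
      · nlinarith [Nat.zero_le (times 2 F)]
      · nlinarith [Nat.zero_le (times 2 F)]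
    · have hd' : d ≤ 8 := by omega
      have h2 : 12 * 2 ^ d ≤ (d + 14) * times 1 F + 12 * times 2 F := by
        have h3 : (2 * d + 6) * times 1 F ≤ (d + 14) * times 1 F :=
          Nat.mul_le_mul_right _ (by omega)
        nlinarith
      refine ⟨by omega, ?_, fun h19 => by omega⟩
      nlinarith [Nat.zero_le (times 2 F)]
  have hg : ∀ d : ℕ, 12 * 2 ^ d ≤ (d + 14) * g 3 d := by
    intro d
    obtain ⟨F, hF, hc⟩ := exists_min 3 le_rfl d
    rw [← hc]
    exact (key d F hF).2.1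
  refine ⟨key, hg, ?_⟩
  intro c hc
  obtain ⟨D, hD⟩ := exists_nat_ge (14 * 12 / (12 - c))
  filter_upwards [Filter.eventually_ge_atTop (max D 1)] with d hd
  have hd1 : (1 : ℝ) ≤ d := by exact_mod_cast (le_max_right D 1).trans hd
  have hdD : (D : ℝ) ≤ d := by exact_mod_cast (le_max_left D 1).trans hd
  have h1 : (12 : ℝ) * 2 ^ d ≤ (d + 14) * g 3 d := by exact_mod_cast hg d
  have hpos : (0 : ℝ) < 12 - c := by linarith
  have h2 : 14 * 12 ≤ (12 - c) * d := by
    have := hD.trans hdD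
    rw [div_le_iff₀ hpos] at this
    linarith
  have h3 : c * (d + 14) ≤ 12 * d := by nlinarith
  have h4 : (0 : ℝ) < 2 ^ d := by positivity
  rw [div_le_iff₀ (by linarith)]
  have h5 : c * (d + 14) * 2 ^ d ≤ 12 * d * 2 ^ d := mul_le_mul_of_nonneg_right h3 h4.le
  have h6 : (0 : ℝ) < (d : ℝ) + 14 := by linarith
  have h7 : (12 * 2 ^ d) * (d : ℝ) ≤ ((d + 14) * g 3 d) * d :=
    mul_le_mul_of_nonneg_right h1 (by linarith)
  have h8 : (d + 14) * (c * 2 ^ d) ≤ (d + 14) * ((g 3 d : ℝ) * d) := by nlinarith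
  exact le_of_mul_le_mul_left h8 h6

end Pool.Agent.Results.MP_7489fb_co.TernaryLowerBound
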